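import Mathlib
import Pool.Agent.H584.Smooth.Cyc

/-!
# The abc conjecture is decided by a thin set of smooth triples

Let `δ > 0`.  The abc conjecture is equivalent to its restriction to the triples `a + b = c` all of whose prime
factors are at most `c ^ δ`.  Moreover there is a set `S` of such triples, with at most `κ X ^ δ` members up to `X`,
whose members `a` and `c` are `k`-th powers and whose product `a b c` is divisible by `N` (for given `k` and `N`), such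
that the abc inequality for `S` implies the abc inequality for all triples, with a linear loss in `ε`.

`S` consists of the triples `(a ^ n, c ^ n - a ^ n, c ^ n)` for a suitable `n` with `φ(n) ≤ (δ / 2) n`: every prime
factor of `c ^ n - a ^ n` divides `n` or one of the numbers `Φ_d(c, a) ≤ (a + c) ^ φ(d)`, `d ∣ n`.
-/

set_option autoImplicit false

namespace Pool.Agent.Results.MP_7aad9f_nt.SmoothTriples

open Pool.Agent.H584.Smooth

/-- the radical `R(m)`: the product of the distinct primes dividing `m` -/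
def R (m : ℕ) : ℕ := ∏ p ∈ m.primeFactors, p

/-- the triples `(a, b, c)` of coprime positive integers with `a + b = c` -/
def Triples : Set (ℕ × ℕ × ℕ) := {t | 0 < t.1 ∧ 0 < t.2.1 ∧ Nat.Coprime t.1 t.2.1 ∧ t.1 + t.2.1 = t.2.2}

/-- the triples all of whose prime factors are at most `c ^ δ` -/
def Smooth (δ : ℝ) : Set (ℕ × ℕ × ℕ) :=
  {t | t ∈ Triples ∧ ∀ p : ℕ, p.Prime → p ∣ t.1 * t.2.1 * t.2.2 → (p : ℝ) ≤ (t.2.2 : ℝ) ^ δ}

/-- the abc inequality with the exponent `1 + ε` for the triples in `S` -/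
def Ineq (ε : ℝ) (S : Set (ℕ × ℕ × ℕ)) : Prop :=
  ∃ κ : ℝ, ∀ a b c : ℕ, (a, b, c) ∈ S → (c : ℝ) ≤ κ * (R (a * b * c) : ℝ) ^ (1 + ε)

/-- the triple `(a ^ n, c ^ n - a ^ n, c ^ n)` -/
def pw (n : ℕ) (t : ℕ × ℕ × ℕ) : ℕ × ℕ × ℕ := (t.1 ^ n, t.2.2 ^ n - t.1 ^ n, t.2.2 ^ n)

lemma c_ge {t : ℕ × ℕ × ℕ} (h : t ∈ Triples) : 2 ≤ t.2.2 := by
  obtain ⟨h1, h2, _, h4⟩ := h
  omega

lemma a_lt {t : ℕ × ℕ × ℕ} (h : t ∈ Triples) : t.1 < t.2.2 := by
  obtain ⟨h1, h2, _, h4⟩ := h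
  omega

lemma cop {t : ℕ × ℕ × ℕ} (h : t ∈ Triples) : Nat.Coprime t.1 t.2.2 := by
  obtain ⟨h1, h2, h3, h4⟩ := h
  rw [← h4]
  simpa using h3

lemma pw_mem {n : ℕ} (hn : 0 < n) {t : ℕ × ℕ × ℕ} (h : t ∈ Triples) : pw n t ∈ Triples := by
  have h1 := a_lt h
  have h2 := cop h
  have h3 : t.1 ^ n < t.2.2 ^ n := Nat.pow_lt_pow_left h1 hn.ne'
  refine ⟨pow_pos h.1 n, Nat.sub_pos_of_lt h3, ?_, ?_⟩
  · show Nat.Coprime (t.1 ^ n) (t.2.2 ^ n - t.1 ^ n)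
    rw [Nat.coprime_sub_self_right h3.le]
    exact Nat.Coprime.pow n n h2
  · show t.1 ^ n + (t.2.2 ^ n - t.1 ^ n) = t.2.2 ^ n
    omega

lemma R_pos (m : ℕ) : 0 < R m :=
  Finset.prod_pos fun _ hp => (Nat.prime_of_mem_primeFactors hp).pos

lemma R_le {m : ℕ} (hm : 0 < m) : R m ≤ m := Nat.le_of_dvd hm (Nat.prod_primeFactors_dvd m)

lemma R_le_mul {m u v : ℕ} (h : m.primeFactors ⊆ u.primeFactors ∪ v.primeFactors) :
    R m ≤ R u * R v := by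
  classical
  unfold R
  rw [← Finset.prod_union_inter]
  calc ∏ p ∈ m.primeFactors, p ≤ ∏ p ∈ u.primeFactors ∪ v.primeFactors, p :=
        Finset.prod_le_prod_of_subset_of_one_le' h fun p hp _ => by
          rcases Finset.mem_union.1 hp with h | h <;> exact (Nat.prime_of_mem_primeFactors h).one_le
    _ ≤ (∏ p ∈ u.primeFactors ∪ v.primeFactors, p) * ∏ p ∈ u.primeFactors ∩ v.primeFactors, p :=
        Nat.le_mul_of_pos_right _ (Finset.prod_pos fun p hp =>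
          (Nat.prime_of_mem_primeFactors (Finset.mem_inter.1 hp).1).pos)

/-- the prime factors of the triple `pw n t` -/
lemma prime_le {n : ℕ} (hn : 0 < n) {t : ℕ × ℕ × ℕ} (h : t ∈ Triples) {p : ℕ} (hp : p.Prime)
    (hd : p ∣ (pw n t).1 * (pw n t).2.1 * (pw n t).2.2) :
    p ≤ n ∨ (p : ℝ) ≤ ((t.1 : ℝ) + t.2.2) ^ n.totient := by
  have ha := h.1
  have hac := a_lt h
  have hφ : 1 ≤ n.totient := Nat.totient_pos.2 hn
  have hsmall : ∀ m : ℕ, m ≤ t.2.2 → (m : ℝ) ≤ ((t.1 : ℝ) + t.2.2) ^ n.totient := by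
    intro m hm
    have h1 : (1 : ℝ) ≤ (t.1 : ℝ) + t.2.2 := by
      have : (1 : ℝ) ≤ t.1 := by exact_mod_cast ha
      have : (0 : ℝ) ≤ t.2.2 := Nat.cast_nonneg _
      linarith
    calc (m : ℝ) ≤ t.2.2 := by exact_mod_cast hm
      _ ≤ ((t.1 : ℝ) + t.2.2) ^ 1 := by
          rw [pow_one]
          have : (0 : ℝ) ≤ t.1 := Nat.cast_nonneg _
          linarith
      _ ≤ _ := pow_le_pow_right₀ h1 hφ
  by_cases hpa : p ∣ t.1
  · exact Or.inr (hsmall p ((Nat.le_of_dvd ha hpa).trans hac.le))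
  by_cases hpc : p ∣ t.2.2
  · exact Or.inr (hsmall p (Nat.le_of_dvd (by omega) hpc))
  by_cases hpn : p ∣ n
  · exact Or.inl (Nat.le_of_dvd hn hpn)
  right
  have hdiv : p ∣ t.2.2 ^ n - t.1 ^ n := by
    rcases (Nat.Prime.dvd_mul hp).1 hd with h1 | h1
    · rcases (Nat.Prime.dvd_mul hp).1 h1 with h2 | h2
      · exact absurd (hp.dvd_of_dvd_pow h2) hpa
      · exact h2
    · exact absurd (hp.dvd_of_dvd_pow h1) hpc
  have hlt : t.1 ^ n < t.2.2 ^ n := Nat.pow_lt_pow_left hac hn.ne'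
  have hdivZ : (p : ℤ) ∣ (t.2.2 : ℤ) ^ n - (t.1 : ℤ) ^ n := by
    have := Int.natCast_dvd_natCast.2 hdiv
    rw [Nat.cast_sub hlt.le] at this
    exact_mod_cast this
  obtain ⟨d, hdn, hd0, hpd⟩ := exists_dvd (R := ℤ) (q := (p : ℤ)) (x := (t.2.2 : ℤ))
    (y := (t.1 : ℤ)) (Nat.prime_iff_prime_int.1 hp) hn (fun h0 => hpa (by exact_mod_cast h0))
    hdivZ (fun h0 => hpn (by exact_mod_cast h0))
  have haC : (t.1 : ℂ) ≠ 0 := by exact_mod_cast ha.ne'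
  have hcast : ((hc d (t.2.2 : ℤ) (t.1 : ℤ) : ℤ) : ℂ) = hc d (t.2.2 : ℂ) (t.1 : ℂ) := by
    have := hc_map (Int.castRingHom ℂ) d (t.2.2 : ℤ) (t.1 : ℤ)
    simpa using this
  have hneC : hc d (t.2.2 : ℂ) (t.1 : ℂ) ≠ 0 := by
    refine hc_ne_zero haC hdn ?_
    exact_mod_cast hlt.ne'
  have hne : hc d (t.2.2 : ℤ) (t.1 : ℤ) ≠ 0 := by
    intro h0
    rw [h0] at hcast
    exact hneC (by simpa using hcast.symm)
  have hle : (p : ℤ) ≤ |hc d (t.2.2 : ℤ) (t.1 : ℤ)| :=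
    Int.le_of_dvd (abs_pos.2 hne) ((dvd_abs _ _).2 hpd)
  have hle' : (p : ℝ) ≤ ((|hc d (t.2.2 : ℤ) (t.1 : ℤ)| : ℤ) : ℝ) := by exact_mod_cast hle
  have hnorm : ((|hc d (t.2.2 : ℤ) (t.1 : ℤ)| : ℤ) : ℝ) = ‖hc d (t.2.2 : ℂ) (t.1 : ℂ)‖ := by
    rw [← hcast, Complex.norm_intCast, Int.cast_abs]
  have hb := norm_hc_le d (x := (t.2.2 : ℂ)) haC
  rw [Complex.norm_natCast, Complex.norm_natCast] at hb
  have h1 : (1 : ℝ) ≤ (t.1 : ℝ) + t.2.2 := by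
    have : (1 : ℝ) ≤ t.1 := by exact_mod_cast ha
    have : (0 : ℝ) ≤ t.2.2 := Nat.cast_nonneg _
    linarith
  calc (p : ℝ) ≤ ‖hc d (t.2.2 : ℂ) (t.1 : ℂ)‖ := by rw [← hnorm]; exact hle'
    _ ≤ ((t.2.2 : ℝ) + t.1) ^ d.totient := hb
    _ = ((t.1 : ℝ) + t.2.2) ^ d.totient := by rw [add_comm]
    _ ≤ _ := pow_le_pow_right₀ h1 (Nat.le_of_dvd hφ (Nat.totient_dvd_of_dvd hdn))

/-- the prescribed divisor -/
lemma dvd_pw {n N : ℕ} (hN : 0 < N) (hNn : N ≤ n) (hφ : N.totient ∣ n) {t : ℕ × ℕ × ℕ}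
    (h : t ∈ Triples) : N ∣ (pw n t).1 * (pw n t).2.1 * (pw n t).2.2 := by
  have hn : 0 < n := hN.trans_le hNn
  have hac := a_lt h
  have hlt : t.1 ^ n < t.2.2 ^ n := Nat.pow_lt_pow_left hac hn.ne'
  rw [Nat.dvd_iff_prime_pow_dvd_dvd]
  intro p k hp hk
  have hkn : k ≤ n := by
    have h1 : p ^ k ≤ N := Nat.le_of_dvd hN hk
    have h2 : k < p ^ k := Nat.lt_pow_self hp.one_lt
    omega
  by_cases hpa : p ∣ t.1
  · exact (((pow_dvd_pow p hkn).trans (pow_dvd_pow_of_dvd hpa n)).mul_right _).mul_right _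
  by_cases hpc : p ∣ t.2.2
  · exact ((pow_dvd_pow p hkn).trans (pow_dvd_pow_of_dvd hpc n)).mul_left _
  refine Dvd.dvd.mul_right (Dvd.dvd.mul_left ?_ _) _
  have hφ' : (p ^ k).totient ∣ n := (Nat.totient_dvd_of_dvd hk).trans hφ
  obtain ⟨m, hm⟩ := hφ'
  have hone : ∀ x : ℕ, ¬ p ∣ x → x ^ n ≡ 1 [MOD p ^ k] := by
    intro x hx
    have h1 : Nat.Coprime x (p ^ k) := Nat.Coprime.pow_right k ((Nat.Prime.coprime_iff_not_dvd hp).2 hx).symm
    have h2 := (Nat.ModEq.pow_totient h1).pow m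
    rw [one_pow, ← pow_mul, ← hm] at h2
    exact h2
  exact (Nat.modEq_iff_dvd' hlt.le).1 ((hone _ hpa).trans (hone _ hpc).symm)

/-- the radical of the triple `pw n t` -/
lemma R_pw {n : ℕ} (hn : 0 < n) {t : ℕ × ℕ × ℕ} (h : t ∈ Triples) :
    (R ((pw n t).1 * (pw n t).2.1 * (pw n t).2.2) : ℝ) ≤
      (R (t.1 * t.2.1 * t.2.2) : ℝ) * (n * (t.2.2 : ℝ) ^ (n - 1)) := by
  have ha := h.1
  have hb := h.2.1
  have hsum := h.2.2.2
  have hac := a_lt h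
  have hc : 0 < t.2.2 := by omega
  set Q : ℕ := ∑ i ∈ Finset.range n, t.2.2 ^ i * t.1 ^ (n - 1 - i) with hQ
  have hfac : t.2.2 ^ n - t.1 ^ n = t.2.1 * Q := by
    have h1 := (Commute.all (t.2.2 : ℤ) (t.1 : ℤ)).geom_sum₂_mul n
    have hlt : t.1 ^ n < t.2.2 ^ n := Nat.pow_lt_pow_left hac hn.ne'
    have h2 : ((t.2.2 ^ n - t.1 ^ n : ℕ) : ℤ) = ((t.2.1 * Q : ℕ) : ℤ) := by
      rw [Nat.cast_sub hlt.le, hQ]
      push_cast
      rw [← h1]
      have : (t.2.1 : ℤ) = t.2.2 - t.1 := by omega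
      rw [this]
      ring
    exact_mod_cast h2
  have hQpos : 0 < Q := by
    rw [hQ]
    exact Finset.sum_pos (fun i _ => by positivity) ⟨0, Finset.mem_range.2 hn⟩
  have hQle : Q ≤ n * t.2.2 ^ (n - 1) := by
    rw [hQ]
    calc ∑ i ∈ Finset.range n, t.2.2 ^ i * t.1 ^ (n - 1 - i)
        ≤ ∑ i ∈ Finset.range n, t.2.2 ^ (n - 1) := by
          refine Finset.sum_le_sum fun i hi => ?_
          rw [Finset.mem_range] at hi
          calc t.2.2 ^ i * t.1 ^ (n - 1 - i) ≤ t.2.2 ^ i * t.2.2 ^ (n - 1 - i) := by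
                gcongr
            _ = t.2.2 ^ (n - 1) := by
                rw [← pow_add]
                congr 1
                omega
      _ = n * t.2.2 ^ (n - 1) := by simp
  have hsub : ((pw n t).1 * (pw n t).2.1 * (pw n t).2.2).primeFactors ⊆
      (t.1 * t.2.1 * t.2.2).primeFactors ∪ Q.primeFactors := by
    intro p hp
    have hpp := Nat.prime_of_mem_primeFactors hp
    have hpd := Nat.dvd_of_mem_primeFactors hp
    have hne : t.1 * t.2.1 * t.2.2 ≠ 0 := by positivity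
    have hpd' : p ∣ t.1 ^ n * (t.2.1 * Q) * t.2.2 ^ n := by
      rw [← hfac]
      exact hpd
    rw [Finset.mem_union]
    rcases (Nat.Prime.dvd_mul hpp).1 hpd' with h1 | h1
    · rcases (Nat.Prime.dvd_mul hpp).1 h1 with h2 | h2
      · left
        exact Nat.mem_primeFactors.2 ⟨hpp, ((hpp.dvd_of_dvd_pow h2).mul_right _).mul_right _, hne⟩
      · rcases (Nat.Prime.dvd_mul hpp).1 h2 with h3 | h3
        · left
          exact Nat.mem_primeFactors.2 ⟨hpp, (h3.mul_left _).mul_right _, hne⟩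
        · right
          exact Nat.mem_primeFactors.2 ⟨hpp, h3, hQpos.ne'⟩
    · left
      exact Nat.mem_primeFactors.2 ⟨hpp, (hpp.dvd_of_dvd_pow h1).mul_left _, hne⟩
  have h1 := R_le_mul hsub
  have h2 : R Q ≤ n * t.2.2 ^ (n - 1) := (R_le hQpos).trans hQle
  have h3 : R ((pw n t).1 * (pw n t).2.1 * (pw n t).2.2) ≤
      R (t.1 * t.2.1 * t.2.2) * (n * t.2.2 ^ (n - 1)) := h1.trans (Nat.mul_le_mul_left _ h2)
  exact_mod_cast h3

/-- the choice of the exponent `n` -/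
lemma exists_n {δ : ℝ} (hδ : 0 < δ) {k N : ℕ} (hk : 0 < k) (hN : 0 < N) :
    ∃ n : ℕ, 0 < n ∧ k ∣ n ∧ N ≤ n ∧ N.totient ∣ n ∧ (n.totient : ℝ) ≤ δ / 2 * n ∧
      (n : ℝ) ≤ (2 : ℝ) ^ (n * δ) ∧ 2 / (n : ℝ) ≤ δ := by
  obtain ⟨M, hM, hφ⟩ := exists_totient_le (half_pos hδ)
  set u : ℝ := δ * Real.log 2 with hu
  have hu0 : 0 < u := mul_pos hδ (Real.log_pos (by norm_num))
  obtain ⟨s, hs⟩ := exists_nat_gt (max (2 / δ) (2 / u ^ 2))
  have hs1 : 2 / δ < s := (le_max_left _ _).trans_lt hs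
  have hs2 : 2 / u ^ 2 < s := (le_max_right _ _).trans_lt hs
  have hs0 : 0 < s := by
    have : (0 : ℝ) < s := (by positivity : (0 : ℝ) < 2 / δ).trans hs1
    exact_mod_cast this
  have hφN : 0 < N.totient := Nat.totient_pos.2 hN
  set n : ℕ := M * k * N.totient * N * s with hn
  have hn0 : 0 < n := by positivity
  have hsn : s ≤ n := by
    rw [hn]
    exact Nat.le_mul_of_pos_left s (by positivity)
  have hNn : N ≤ n := by
    rw [hn, mul_assoc, mul_comm N s, ← mul_assoc]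
    exact Nat.le_mul_of_pos_left N (by positivity)
  have hsR : (s : ℝ) ≤ n := by exact_mod_cast hsn
  have hnR : (0 : ℝ) < n := by exact_mod_cast hn0
  refine ⟨n, hn0, ⟨M * N.totient * N * s, by rw [hn]; ring⟩, hNn, ⟨M * k * N * s, by rw [hn]; ring⟩,
    ?_, ?_, ?_⟩
  · exact hφ n ⟨k * N.totient * N * s, by rw [hn]; ring⟩
  · have h1 : (2 : ℝ) ^ ((n : ℝ) * δ) = Real.exp (n * u) := by
      rw [Real.rpow_def_of_pos (by norm_num), hu]
      congr 1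
      ring
    rw [h1]
    have h2 := Real.quadratic_le_exp_of_nonneg (x := n * u) (by positivity)
    have h3 : (n : ℝ) ≤ (n * u) ^ 2 / 2 := by
      have h4 : 2 < u ^ 2 * s := by
        rw [div_lt_iff₀ (by positivity)] at hs2
        linarith
      have h5 : u ^ 2 * s ≤ u ^ 2 * n := by gcongr
      have h6 : (n : ℝ) * 2 ≤ n * (u ^ 2 * n) := by
        apply mul_le_mul_of_nonneg_left _ hnR.le
        linarith
      linarith [h6, show (n * u) ^ 2 / 2 = n * (u ^ 2 * n) / 2 by ring]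
    have h7 : 0 ≤ (n : ℝ) * u := by positivity
    linarith
  · have h1 : 2 / δ < n := hs1.trans_le hsR
    rw [div_lt_iff₀ hδ] at h1
    rw [div_le_iff₀ hnR]
    linarith

/-- the triples `pw n t` are smooth -/
lemma pw_smooth {δ : ℝ} {n : ℕ} (hn : 0 < n) (h1 : (n.totient : ℝ) ≤ δ / 2 * n)
    (h2 : (n : ℝ) ≤ (2 : ℝ) ^ (n * δ)) {t : ℕ × ℕ × ℕ} (h : t ∈ Triples) :
    pw n t ∈ Smooth δ := by
  refine ⟨pw_mem hn h, fun p hp hd => ?_⟩
  have hc : (2 : ℝ) ≤ t.2.2 := by exact_mod_cast c_ge h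
  have hac : (t.1 : ℝ) ≤ t.2.2 := by exact_mod_cast (a_lt h).le
  have ha0 : (0 : ℝ) ≤ t.1 := Nat.cast_nonneg _
  have hδ : 0 ≤ n * δ := by
    have : (0 : ℝ) ≤ n.totient := Nat.cast_nonneg _
    linarith
  have hcn : (((pw n t).2.2 : ℕ) : ℝ) ^ δ = (t.2.2 : ℝ) ^ ((n : ℝ) * δ) := by
    show ((t.2.2 ^ n : ℕ) : ℝ) ^ δ = _
    rw [Nat.cast_pow, Real.rpow_mul (by linarith), Real.rpow_natCast]
  rw [hcn]
  rcases prime_le hn h hp hd with h3 | h3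
  · calc (p : ℝ) ≤ n := by exact_mod_cast h3
      _ ≤ (2 : ℝ) ^ (n * δ) := h2
      _ ≤ _ := Real.rpow_le_rpow (by norm_num) hc hδ
  · calc (p : ℝ) ≤ ((t.1 : ℝ) + t.2.2) ^ n.totient := h3
      _ ≤ ((t.2.2 : ℝ) ^ 2) ^ n.totient := by
          refine pow_le_pow_left₀ (by linarith) ?_ _
          nlinarith
      _ = (t.2.2 : ℝ) ^ ((2 * n.totient : ℕ) : ℝ) := by
          rw [Real.rpow_natCast, pow_mul]
      _ ≤ _ := by
          refine Real.rpow_le_rpow_of_exponent_le (by linarith) ?_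
          push_cast
          linarith

/-- the number of triples `pw n t` up to `X` -/
lemma count_pw {δ : ℝ} {n : ℕ} (hn : 0 < n) (h1 : 2 / (n : ℝ) ≤ δ) (X : ℕ) (hX : 1 ≤ X) :
    {t | t ∈ pw n '' Triples ∧ t.2.2 ≤ X}.Finite ∧
      ({t | t ∈ pw n '' Triples ∧ t.2.2 ≤ X}.ncard : ℝ) ≤ 4 * (X : ℝ) ^ δ := by
  classical
  set Y : ℕ := ⌊(X : ℝ) ^ (1 / (n : ℝ))⌋₊ with hY
  have hX1 : (1 : ℝ) ≤ X := by exact_mod_cast hX
  have hnR : (0 : ℝ) < n := by exact_mod_cast hn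
  have hsub : {t | t ∈ pw n '' Triples ∧ t.2.2 ≤ X} ⊆
      (((Finset.range (Y + 1)) ×ˢ (Finset.range (Y + 1))).image
        (fun q : ℕ × ℕ => (q.1 ^ n, q.2 ^ n - q.1 ^ n, q.2 ^ n)) : Finset (ℕ × ℕ × ℕ)) := by
    rintro _ ⟨⟨t, ht, rfl⟩, h3⟩
    have h3' : t.2.2 ^ n ≤ X := h3
    have hcY : t.2.2 ≤ Y := by
      refine Nat.le_floor ?_
      have h4 : (t.2.2 : ℝ) ^ n ≤ X := by exact_mod_cast h3'
      have h5 : (t.2.2 : ℝ) = ((t.2.2 : ℝ) ^ n) ^ (1 / (n : ℝ)) := by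
        rw [one_div, Real.pow_rpow_inv_natCast (Nat.cast_nonneg _) hn.ne']
      rw [h5]
      exact Real.rpow_le_rpow (by positivity) h4 (by positivity)
    have haY : t.1 ≤ Y := (a_lt ht).le.trans hcY
    rw [Finset.mem_coe, Finset.mem_image]
    exact ⟨(t.1, t.2.2), by
      rw [Finset.mem_product, Finset.mem_range, Finset.mem_range]
      exact ⟨Nat.lt_succ_of_le haY, Nat.lt_succ_of_le hcY⟩, rfl⟩
  refine ⟨(Finset.finite_toSet _).subset hsub, ?_⟩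
  have hcard : {t | t ∈ pw n '' Triples ∧ t.2.2 ≤ X}.ncard ≤ (Y + 1) * (Y + 1) := by
    refine (Set.ncard_le_ncard hsub (Finset.finite_toSet _)).trans ?_
    rw [Set.ncard_coe_finset]
    refine Finset.card_image_le.trans ?_
    rw [Finset.card_product, Finset.card_range]
  have hpow1 : (1 : ℝ) ≤ (X : ℝ) ^ (1 / (n : ℝ)) := Real.one_le_rpow hX1 (by positivity)
  have hYle : (Y : ℝ) + 1 ≤ 2 * (X : ℝ) ^ (1 / (n : ℝ)) := by
    have : (Y : ℝ) ≤ (X : ℝ) ^ (1 / (n : ℝ)) := Nat.floor_le (by positivity)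
    linarith
  calc ({t | t ∈ pw n '' Triples ∧ t.2.2 ≤ X}.ncard : ℝ) ≤ ((Y : ℝ) + 1) * ((Y : ℝ) + 1) := by
        exact_mod_cast hcard
    _ ≤ (2 * (X : ℝ) ^ (1 / (n : ℝ))) * (2 * (X : ℝ) ^ (1 / (n : ℝ))) := by gcongr
    _ = 4 * (X : ℝ) ^ (2 / (n : ℝ)) := by
        have : (X : ℝ) ^ (2 / (n : ℝ)) = (X : ℝ) ^ (1 / (n : ℝ)) * (X : ℝ) ^ (1 / (n : ℝ)) := by
          rw [← Real.rpow_add (by linarith)]
          congr 1
          ring
        rw [this]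
        ring
    _ ≤ 4 * (X : ℝ) ^ δ := by
        gcongr

/-- the transfer of the inequality -/
lemma transfer {n : ℕ} (hn : 0 < n) {ε : ℝ} (hε : 0 < ε) (hε1 : ε ≤ 1)
    (h : Ineq (1 / (4 * n) * ε) (pw n '' Triples)) : Ineq ε Triples := by
  obtain ⟨κ, hκ⟩ := h
  have hnR : (1 : ℝ) ≤ n := by exact_mod_cast hn
  have hn0 : (0 : ℝ) < n := by linarith
  set η : ℝ := 1 / (4 * n) * ε with hη
  have hη0 : 0 < η := by positivity
  have hηn : η * n = ε / 4 := by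
    rw [hη]
    field_simp
  have hη1 : η ≤ 1 := by
    have : η * 1 ≤ η * n := by gcongr
    linarith
  set K : ℝ := (|κ| + 1) * (n : ℝ) ^ (2 : ℝ) with hK
  have hK0 : 0 < K := by positivity
  refine ⟨K ^ (2 : ℝ) + 1, fun a b c ht => ?_⟩
  have hc2 := c_ge ht
  have hc : (2 : ℝ) ≤ c := by exact_mod_cast hc2
  have hc0 : (0 : ℝ) < c := by linarith
  set r : ℝ := (R (a * b * c) : ℝ) with hr
  have hr1 : 1 ≤ r := by
    rw [hr]
    exact_mod_cast R_pos _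
  have hr0 : 0 < r := by linarith
  have h1 := hκ (a ^ n) (c ^ n - a ^ n) (c ^ n) ⟨(a, b, c), ht, rfl⟩
  have h2 := R_pw hn ht
  have h2' : (R (a ^ n * (c ^ n - a ^ n) * c ^ n) : ℝ) ≤ r * (n * (c : ℝ) ^ (n - 1)) := h2
  have hpw0 : (0 : ℝ) ≤ (R (a ^ n * (c ^ n - a ^ n) * c ^ n) : ℝ) := Nat.cast_nonneg _
  -- `c ^ n ≤ κ (r n c ^ (n - 1)) ^ (1 + η)`
  have h3 : (c : ℝ) ^ (n : ℝ) ≤ (|κ| + 1) * (r * (n * (c : ℝ) ^ ((n : ℝ) - 1))) ^ (1 + η) := by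
    have h4 : ((c ^ n : ℕ) : ℝ) = (c : ℝ) ^ (n : ℝ) := by
      rw [Nat.cast_pow, Real.rpow_natCast]
    have h5 : (c : ℝ) ^ (n - 1) = (c : ℝ) ^ ((n : ℝ) - 1) := by
      rw [← Real.rpow_natCast, Nat.cast_sub hn, Nat.cast_one]
    rw [← h4]
    rw [h5] at h2'
    calc ((c ^ n : ℕ) : ℝ) ≤ κ * (R (a ^ n * (c ^ n - a ^ n) * c ^ n) : ℝ) ^ (1 + η) := h1
      _ ≤ (|κ| + 1) * (R (a ^ n * (c ^ n - a ^ n) * c ^ n) : ℝ) ^ (1 + η) := by
          gcongr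
          linarith [le_abs_self κ]
      _ ≤ _ := by
          gcongr
  have h6 : (r * (n * (c : ℝ) ^ ((n : ℝ) - 1))) ^ (1 + η) =
      r ^ (1 + η) * ((n : ℝ) ^ (1 + η) * (c : ℝ) ^ (((n : ℝ) - 1) * (1 + η))) := by
    rw [Real.mul_rpow hr0.le (by positivity), Real.mul_rpow hn0.le (by positivity),
      ← Real.rpow_mul hc0.le]
  have h7 : (n : ℝ) ^ (1 + η) ≤ (n : ℝ) ^ (2 : ℝ) :=
    Real.rpow_le_rpow_of_exponent_le hnR (by linarith)
  -- `c ^ θ ≤ K r ^ (1 + η)` with `θ = n - (n - 1) (1 + η)`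
  have h8 : (c : ℝ) ^ ((n : ℝ) - ((n : ℝ) - 1) * (1 + η)) ≤ K * r ^ (1 + η) := by
    rw [Real.rpow_sub hc0, div_le_iff₀ (by positivity)]
    calc (c : ℝ) ^ (n : ℝ) ≤ _ := h3
      _ = (|κ| + 1) * (r ^ (1 + η) * ((n : ℝ) ^ (1 + η) * (c : ℝ) ^ (((n : ℝ) - 1) * (1 + η)))) := by
          rw [h6]
      _ ≤ (|κ| + 1) * (r ^ (1 + η) * ((n : ℝ) ^ (2 : ℝ) * (c : ℝ) ^ (((n : ℝ) - 1) * (1 + η)))) := by
          gcongr
      _ = K * r ^ (1 + η) * (c : ℝ) ^ (((n : ℝ) - 1) * (1 + η)) := by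
          rw [hK]
          ring
  have hθ : 1 - ε / 4 ≤ (n : ℝ) - ((n : ℝ) - 1) * (1 + η) := by
    have : (n : ℝ) - ((n : ℝ) - 1) * (1 + η) = 1 + η - η * n := by ring
    rw [this, hηn]
    linarith
  set θ : ℝ := 1 - ε / 4 with hθdef
  have hθ0 : 0 < θ := by rw [hθdef]; linarith
  have h9 : (c : ℝ) ^ θ ≤ K * r ^ (1 + η) :=
    (Real.rpow_le_rpow_of_exponent_le (by linarith) hθ).trans h8
  have hη4 : η ≤ ε / 4 := by
    have : η * 1 ≤ η * n := by gcongr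
    linarith
  have h10 : (c : ℝ) ^ θ ≤ K * r ^ (1 + ε / 4) := by
    refine h9.trans ?_
    gcongr
  -- raise to the power `1 / θ`
  have h11 : (c : ℝ) ≤ K ^ (1 / θ) * r ^ ((1 + ε / 4) / θ) := by
    have h12 : (c : ℝ) = ((c : ℝ) ^ θ) ^ (1 / θ) := by
      rw [← Real.rpow_mul hc0.le, mul_one_div_cancel hθ0.ne', Real.rpow_one]
    have h13 : K ^ (1 / θ) * r ^ ((1 + ε / 4) / θ) = (K * r ^ (1 + ε / 4)) ^ (1 / θ) := by
      rw [Real.mul_rpow hK0.le (by positivity), ← Real.rpow_mul hr0.le]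
      congr 2
      ring
    rw [h12, h13]
    exact Real.rpow_le_rpow (by positivity) h10 (by positivity)
  have hexp : (1 + ε / 4) / θ ≤ 1 + ε := by
    rw [div_le_iff₀ hθ0, hθdef]
    nlinarith
  have hinv : 1 / θ ≤ 2 := by
    rw [div_le_iff₀ hθ0, hθdef]
    linarith
  have hKle : K ^ (1 / θ) ≤ K ^ (2 : ℝ) + 1 := by
    rcases le_total 1 K with hK1 | hK1
    · have := Real.rpow_le_rpow_of_exponent_le hK1 hinv
      linarith
    · have h14 : K ^ (1 / θ) ≤ 1 := Real.rpow_le_one hK0.le hK1 (by positivity)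
      have h15 : 0 ≤ K ^ (2 : ℝ) := by positivity
      linarith
  calc (c : ℝ) ≤ K ^ (1 / θ) * r ^ ((1 + ε / 4) / θ) := h11
    _ ≤ (K ^ (2 : ℝ) + 1) * r ^ (1 + ε) := by
        gcongr

/-- The abc conjecture is decided by a thin set of smooth triples. -/
theorem result (δ : ℝ) (hδ : 0 < δ) (k N : ℕ) (hk : 0 < k) (hN : 0 < N) :
    (∃ S : Set (ℕ × ℕ × ℕ), S ⊆ Smooth δ ∧
      (∀ a b c : ℕ, (a, b, c) ∈ S → (∃ x z : ℕ, a = x ^ k ∧ c = z ^ k) ∧ N ∣ a * b * c) ∧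
      (∃ κ : ℝ, ∀ X : ℕ, 1 ≤ X → {t | t ∈ S ∧ t.2.2 ≤ X}.Finite ∧
        ({t | t ∈ S ∧ t.2.2 ≤ X}.ncard : ℝ) ≤ κ * (X : ℝ) ^ δ) ∧
      (∃ η : ℝ, 0 < η ∧ ∀ ε : ℝ, 0 < ε → ε ≤ 1 → Ineq (η * ε) S → Ineq ε Triples)) ∧
    ((∀ ε : ℝ, 0 < ε → Ineq ε (Smooth δ)) ↔ (∀ ε : ℝ, 0 < ε → Ineq ε Triples)) := by
  obtain ⟨n, hn, hkn, hNn, hφN, h1, h2, h3⟩ := exists_n hδ hk hN
  have hnR : (0 : ℝ) < n := by exact_mod_cast hn
  have hsub : pw n '' Triples ⊆ Smooth δ := by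
    rintro _ ⟨t, ht, rfl⟩
    exact pw_smooth hn h1 h2 ht
  refine ⟨⟨pw n '' Triples, hsub, ?_, ⟨4, count_pw hn h3⟩, ⟨1 / (4 * n), by positivity,
    fun ε hε hε1 h => transfer hn hε hε1 h⟩⟩, ?_, ?_⟩
  · rintro a b c ⟨t, ht, heq⟩
    obtain ⟨m, hm⟩ := hkn
    have ha : t.1 ^ n = a := congrArg Prod.fst heq
    have hc : t.2.2 ^ n = c := congrArg (fun q => q.2.2) heq
    refine ⟨⟨t.1 ^ m, t.2.2 ^ m, ?_, ?_⟩, ?_⟩
    · rw [← ha, ← pow_mul, mul_comm m k, ← hm]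
    · rw [← hc, ← pow_mul, mul_comm m k, ← hm]
    · have := dvd_pw hN hNn hφN ht
      rw [heq] at this
      exact this
  · intro h ε hε
    have hstep : ∀ ε : ℝ, 0 < ε → ε ≤ 1 → Ineq ε Triples := by
      intro ε hε hε1
      refine transfer hn hε hε1 ?_
      obtain ⟨κ, hκ⟩ := h (1 / (4 * n) * ε) (by positivity)
      exact ⟨κ, fun a b c ht => hκ a b c (hsub ht)⟩
    rcases le_total ε 1 with h4 | h4
    · exact hstep ε hε h4
    · obtain ⟨κ, hκ⟩ := hstep 1 one_pos le_rfl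
      refine ⟨|κ|, fun a b c ht => (hκ a b c ht).trans ?_⟩
      have hr1 : (1 : ℝ) ≤ (R (a * b * c) : ℝ) := by exact_mod_cast R_pos _
      calc κ * (R (a * b * c) : ℝ) ^ ((1 : ℝ) + 1) ≤ |κ| * (R (a * b * c) : ℝ) ^ ((1 : ℝ) + 1) := by
            gcongr
            exact le_abs_self κ
        _ ≤ |κ| * (R (a * b * c) : ℝ) ^ (1 + ε) := by
            gcongr
  · intro h ε hε
    obtain ⟨κ, hκ⟩ := h ε hε
    exact ⟨κ, fun a b c ht => hκ a b c ht.1⟩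

end Pool.Agent.Results.MP_7aad9f_nt.SmoothTriples
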