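import Pool.Agent.H584.SmoothNF.Transfer
import Pool.Graph.R_seed8.H645R3.ABC1

/-!
# The abc conjecture over a number field is decided by a thin set of smooth points near a cusp

`K` is a number field of degree `d`, `S` a finite set of finite places, `δ, η > 0` and `k ≥ 1`. The abc conjecture for
`K` is equivalent to its restriction to the points `P = (z ^ k : 1 - z ^ k : -1)` such that `z ∈ K` has absolute value
less than `δ` at all infinite places and at all places of `S` and such that ALL the primes in `I_K(P)` are small: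
`N(𝔭) ^ (1 / d) ≤ H(P) ^ η`, where `H = exp h`. Moreover there is a set `T` of such points with `O(exp (η B))` members
of height `h ≤ B` such that the abc inequality for `T` implies the abc inequality for all points, with a linear loss
in `ε`.

`T` consists of powers of a suitable exponent `m` with `φ(m) ≤ (η / 2) m`: every prime in `I_K(P)`,
`P = (ζ ^ m : 1 - ζ ^ m : -1)`, is a prime at which `ζ` or one of the numbers `Φ_e(ζ)`, `e ∣ m`, is not a unit.
-/

set_option autoImplicit false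

open NumberField

namespace Pool.Agent.Results.MP_a793bb_nt.SmoothPoints

variable {K : Type} [Field K] [NumberField K]

/-- The height `h(P)` of the point `P` with the coordinates `x` (Mathlib's logarithmic height in `K` divided by the
degree of `K`). -/
noncomputable def h (x : Fin 3 → K) : ℝ := Height.logHeight x / Module.finrank ℚ K

/-- The set `I_K(P)` of the primes at which the absolute values of the coordinates are not all equal. -/
def bad (x : Fin 3 → K) : Set (FinitePlace K) := {v | ∃ i j, v (x i) ≠ v (x j)}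

/-- `log N(𝔭) / [K : ℚ]` for the prime `𝔭` of the finite place `v` -/
noncomputable def logN (v : FinitePlace K) : ℝ :=
  Real.log ((Ideal.absNorm v.maximalIdeal.asIdeal : ℕ) : ℝ) / Module.finrank ℚ K

/-- The radical `rad(P)`: the sum of `log N(𝔭) / [K : ℚ]` over the primes in `I_K(P)`. -/
noncomputable def rad (x : Fin 3 → K) : ℝ := ∑ᶠ v ∈ bad x, logN v

/-- `x = (a, b, c)` with `a + b + c = 0` and `a b c ≠ 0` -/
def IsPoint (x : Fin 3 → K) : Prop := x 0 + x 1 + x 2 = 0 ∧ ∀ i, x i ≠ 0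

variable (K) in
/-- all points `(a : b : c)` over `K` with `a + b + c = 0` and `a b c ≠ 0` -/
def Points : Set (Fin 3 → K) := {x | IsPoint x}

/-- the abc inequality with the exponent `1 + ε` for the points in the set `T` -/
def Ineq (ε : ℝ) (T : Set (Fin 3 → K)) : Prop := ∃ C : ℝ, ∀ x ∈ T, h x < (1 + ε) * rad x + C

/-- the abc conjecture for the points in the set `T` -/
def ABCOn (T : Set (Fin 3 → K)) : Prop := ∀ ε : ℝ, 0 < ε → Ineq ε T

/-- The points `P = (z ^ k : 1 - z ^ k : -1)` for which `z ∈ K` has absolute value less than `δ` at all infinite places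
and at all the places in `S`. -/
def Close (S : Finset (FinitePlace K)) (δ : ℝ) (k : ℕ) : Set (Fin 3 → K) :=
  {x | IsPoint x ∧ ∃ z : K, x 0 = -(z ^ k * x 2) ∧ (∀ w : InfinitePlace K, w z < δ) ∧ ∀ v ∈ S, v z < δ}

/-- The smooth points: the points `P` with `N(𝔭) ^ (1 / [K : ℚ]) ≤ H(P) ^ η` for all primes in `I_K(P)`, where
`H(P) = exp h(P)`. -/
def Smooth (η : ℝ) : Set (Fin 3 → K) := {x | IsPoint x ∧ ∀ v ∈ bad x, logN v ≤ η * h x}

open Q241.AK Pool.Agent.H584.SmoothNF

lemma degree_pos : (0 : ℝ) < Module.finrank ℚ K := by exact_mod_cast Module.finrank_pos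

lemma logN_eq (v : FinitePlace K) : logN v = Real.log (N v) / Module.finrank ℚ K := rfl

lemma rad_eq (x : Fin 3 → K) : rad x = rd x / Module.finrank ℚ K := by
  have hd := degree_pos (K := K)
  have h1 : rd x = ∑ᶠ v ∈ bad x, Real.log (N v) := by
    unfold rd Rd
    rw [Real.log_finprod (fun v => lt_of_lt_of_le one_pos (one_le_pr _ v))]
    refine finsum_congr fun v => ?_
    classical
    rw [finsum_eq_if]
    unfold pr
    by_cases hv : v ∈ bad x
    · have hv' : v ∈ D x := hv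
      rw [if_pos hv, if_pos hv']
    · have hv' : v ∉ D x := hv
      rw [if_neg hv, if_neg hv', Real.log_one]
  rw [h1, div_eq_inv_mul, mul_finsum_mem]
  refine finsum_congr fun v => finsum_congr fun _ => ?_
  rw [logN_eq, div_eq_inv_mul]

lemma rad_nonneg (x : Fin 3 → K) : 0 ≤ rad x := by
  rw [rad_eq]
  exact div_nonneg (rd_nonneg x) degree_pos.le

/-- the exponent -/
lemma exists_exponent {η : ℝ} (hη : 0 < η) (A : ℝ) {k : ℕ} (hk : 1 ≤ k) :
    ∃ n : ℕ, 1 ≤ n ∧ ((k * n).totient : ℝ) ≤ η / 2 * ((k * n : ℕ) : ℝ) ∧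
      A / ((k * n : ℕ) : ℝ) ≤ η := by
  obtain ⟨M, hM, hφ⟩ := Pool.Agent.H584.Smooth.exists_totient_le (half_pos hη)
  obtain ⟨s, hs⟩ := exists_nat_gt (|A| / η)
  refine ⟨M * (s + 1), Nat.one_le_iff_ne_zero.2 (by positivity),
    hφ _ ⟨k * (s + 1), by ring⟩, ?_⟩
  have h1 : 0 < k * (M * (s + 1)) := by positivity
  have h2 : (0 : ℝ) < ((k * (M * (s + 1)) : ℕ) : ℝ) := by exact_mod_cast h1
  have h3 : s ≤ k * (M * (s + 1)) := by
    calc s ≤ s + 1 := Nat.le_succ s
      _ ≤ M * (s + 1) := Nat.le_mul_of_pos_left _ hM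
      _ ≤ _ := Nat.le_mul_of_pos_left _ hk
  have h4 : (s : ℝ) ≤ ((k * (M * (s + 1)) : ℕ) : ℝ) := by exact_mod_cast h3
  rw [div_le_iff₀ h2]
  rw [div_lt_iff₀ hη] at hs
  calc A ≤ |A| := le_abs_self A
    _ ≤ s * η := hs.le
    _ ≤ ((k * (M * (s + 1)) : ℕ) : ℝ) * η := by gcongr
    _ = _ := mul_comm _ _

/-- the thin set -/
def thin (S : Finset (FinitePlace K)) (δ : ℝ) (m : ℕ) : Set (Fin 3 → K) :=
  {x | IsPoint x ∧ ∃ ζ : K, x = ![ζ ^ m, 1 - ζ ^ m, -1] ∧
    Module.finrank ℚ K * Real.log 2 ≤ Height.logHeight₁ ζ ∧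
    (∀ w : InfinitePlace K, w ζ < min δ 1) ∧ ∀ v ∈ S, v ζ < min δ 1}

lemma thin_close (S : Finset (FinitePlace K)) (δ : ℝ) {k n : ℕ} (hn : 1 ≤ n) :
    thin S δ (k * n) ⊆ Close S δ k := by
  rintro x ⟨hx, ζ, rfl, -, h1, h2⟩
  have key : ∀ a : ℝ, 0 ≤ a → a < min δ 1 → a ^ n < δ := by
    intro a ha h
    have h3 : a < 1 := h.trans_le (min_le_right _ _)
    calc a ^ n ≤ a ^ 1 := pow_le_pow_of_le_one ha h3.le hn
      _ = a := pow_one a
      _ < δ := h.trans_le (min_le_left _ _)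
  refine ⟨hx, ζ ^ n, ?_, fun w => ?_, fun v hv => ?_⟩
  · show ζ ^ (k * n) = -((ζ ^ n) ^ k * -1)
    rw [← pow_mul, mul_comm n k]
    ring
  · rw [map_pow]
    exact key _ (apply_nonneg w ζ) (h1 w)
  · rw [map_pow]
    exact key _ (apply_nonneg v ζ) (h2 v hv)

lemma thin_smooth (S : Finset (FinitePlace K)) (δ : ℝ) {η : ℝ} {m : ℕ} (hm : 1 ≤ m)
    (hφ : (m.totient : ℝ) ≤ η / 2 * m) : thin S δ m ⊆ Smooth η := by
  rintro x ⟨hx, ζ, rfl, hζ, -, -⟩
  refine ⟨hx, fun v hv => ?_⟩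
  have hd := degree_pos (K := K)
  have h0 : ζ ≠ 0 := by
    rintro rfl
    apply hx.2 0
    show (0 : K) ^ m = 0
    rw [zero_pow (by omega)]
  have h1 : ζ ^ m ≠ 1 := by
    intro h
    apply hx.2 1
    show 1 - ζ ^ m = 0
    rw [h, sub_self]
  have h2 := prime_le hm h0 h1 hv
  have hN : 0 < N v := lt_trans one_pos (one_lt_N v)
  have h3 : Real.log (N v) ≤
      m.totient * (Module.finrank ℚ K * Real.log 2 + Height.logHeight₁ ζ) := by
    have := Real.log_le_log hN h2
    rw [Real.log_pow, Real.log_mul (by positivity) (Height.mulHeight₁_ne_zero ζ), Real.log_pow] at this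
    exact this
  have h4 := height_ge m ζ
  have h5 := Height.zero_le_logHeight₁ ζ
  rw [logN_eq]
  unfold h
  rw [← mul_div_assoc]
  apply div_le_div_of_nonneg_right _ hd.le
  have hη : 0 ≤ η := by
    have h6 : (0 : ℝ) ≤ m.totient := Nat.cast_nonneg _
    have h7 : (0 : ℝ) < m := by exact_mod_cast hm
    by_contra hcon
    push Not at hcon
    nlinarith
  calc Real.log (N v) ≤ m.totient * (Module.finrank ℚ K * Real.log 2 + Height.logHeight₁ ζ) := h3
    _ ≤ (η / 2 * m) * (Height.logHeight₁ ζ + Height.logHeight₁ ζ) := by gcongr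
    _ = η * (m * Height.logHeight₁ ζ) := by ring
    _ ≤ _ := mul_le_mul_of_nonneg_left h4 hη

lemma thin_count (S : Finset (FinitePlace K)) (δ : ℝ) {η : ℝ} {m κ : ℕ} {C : ℝ} (hm : 1 ≤ m)
    (hη : κ * Module.finrank ℚ K / (m : ℝ) ≤ η) (hC : 0 < C)
    (hcount : ∀ B : ℝ, 1 ≤ B → ((Nat.card {w : K // Height.mulHeight₁ w ≤ B} : ℕ) : ℝ) ≤ C * B ^ κ)
    {B : ℝ} (hB : 0 ≤ B) : {x | x ∈ thin S δ m ∧ h x ≤ B}.Finite ∧
      ({x | x ∈ thin S δ m ∧ h x ≤ B}.ncard : ℝ) ≤ C * Real.exp (η * B) := by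
  have hd := degree_pos (K := K)
  have hm0 : (0 : ℝ) < m := by exact_mod_cast hm
  set Y : ℝ := Real.exp (Module.finrank ℚ K * B / m) with hY
  have hY1 : 1 ≤ Y := Real.one_le_exp (by positivity)
  have hfin : {w : K | Height.mulHeight₁ w ≤ Y}.Finite := NumberField.finite_setOfPred_mulHeight₁_le K Y
  have hsub : {x | x ∈ thin S δ m ∧ h x ≤ B} ⊆
      (fun ζ : K => (![ζ ^ m, 1 - ζ ^ m, -1] : Fin 3 → K)) '' {w : K | Height.mulHeight₁ w ≤ Y} := by
    rintro x ⟨⟨hx, ζ, rfl, -, -, -⟩, hB'⟩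
    refine ⟨ζ, ?_, rfl⟩
    have h1 := height_ge m ζ
    unfold h at hB'
    rw [div_le_iff₀ hd] at hB'
    show Height.mulHeight₁ ζ ≤ Y
    rw [hY, ← Real.log_le_iff_le_exp (Height.mulHeight₁_pos ζ), le_div_iff₀ hm0]
    rw [Height.logHeight₁_eq_log_mulHeight₁] at h1
    linarith
  refine ⟨(hfin.image _).subset hsub, ?_⟩
  have h1 : {x | x ∈ thin S δ m ∧ h x ≤ B}.ncard ≤ {w : K | Height.mulHeight₁ w ≤ Y}.ncard :=
    (Set.ncard_le_ncard hsub (hfin.image _)).trans (Set.ncard_image_le hfin)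
  have h2 : (({w : K | Height.mulHeight₁ w ≤ Y}.ncard : ℕ) : ℝ) ≤ C * Y ^ κ := hcount Y hY1
  calc ({x | x ∈ thin S δ m ∧ h x ≤ B}.ncard : ℝ) ≤ ({w : K | Height.mulHeight₁ w ≤ Y}.ncard : ℝ) := by
        exact_mod_cast h1
    _ ≤ C * Y ^ κ := h2
    _ = C * Real.exp (κ * Module.finrank ℚ K / m * B) := by
        rw [hY, ← Real.exp_nat_mul]
        congr 2
        ring
    _ ≤ C * Real.exp (η * B) := by gcongr

lemma thin_transfer (S : Finset (FinitePlace K)) {δ : ℝ} (hδ : 0 < δ) {m : ℕ} (hm : 1 ≤ m) :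
    ∃ κ : ℝ, 0 < κ ∧ ∀ ε : ℝ, 0 < ε → ε ≤ 1 → Ineq (κ * ε) (thin S δ m) → Ineq ε (Points K) := by
  have hd := degree_pos (K := K)
  have hδ1 : 0 < min δ 1 := lt_min hδ one_pos
  obtain ⟨κ, hκ, hloc⟩ := localise_rate S hδ1 hm
  refine ⟨κ, hκ, fun ε hε hε1 ⟨C, hC⟩ => ?_⟩
  set L : ℝ := Module.finrank ℚ K * Real.log 2 with hL
  have hL0 : 0 ≤ L := mul_nonneg hd.le (Real.log_nonneg (by norm_num))
  have h1 : ∃ C : ℝ, ∀ x : Fin 3 → K, Q265.NF.QS S (min δ 1) m x →
      Height.logHeight x ≤ (1 + κ * ε) * rd x + C := by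
    refine ⟨max (Module.finrank ℚ K * C) (m * L + L), fun x hx => ?_⟩
    obtain ⟨⟨hs, hx0⟩, ζ, hζ, hw, hv⟩ := hx
    set c : K := -(x 2)⁻¹ with hc
    have hx2 : x 2 ≠ 0 := hx0 2
    have hc0 : c ≠ 0 := neg_ne_zero.2 (inv_ne_zero hx2)
    have hcx : c • x = ![ζ ^ m, 1 - ζ ^ m, -1] := by
      have e0 : c * x 0 = ζ ^ m := by
        rw [hc, hζ]
        field_simp
      have e2 : c * x 2 = -1 := by
        rw [hc]
        field_simp
      have e1 : c * x 1 = 1 - ζ ^ m := by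
        have : x 1 = -x 0 - x 2 := by linear_combination hs
        rw [this, mul_sub, mul_neg, e0, e2]
        ring
      funext i
      fin_cases i
      · exact e0
      · exact e1
      · exact e2
    have hpt : IsPoint (c • x) := by
      refine ⟨?_, fun i => ?_⟩
      · show c * x 0 + c * x 1 + c * x 2 = 0
        rw [← mul_add, ← mul_add, hs, mul_zero]
      · show c * x i ≠ 0
        exact mul_ne_zero hc0 (hx0 i)
    have hr := rd_nonneg x
    rw [← Height.logHeight_smul_eq_logHeight x hc0, ← rd_smul hc0 x]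
    rcases le_total L (Height.logHeight₁ ζ) with h2 | h2
    · have h3 := hC (c • x) ⟨hpt, ζ, hcx, h2, hw, hv⟩
      rw [rad_eq] at h3
      unfold h at h3
      rw [div_lt_iff₀ hd] at h3
      have e : ((1 + κ * ε) * (rd (c • x) / Module.finrank ℚ K) + C) * Module.finrank ℚ K =
          (1 + κ * ε) * rd (c • x) + Module.finrank ℚ K * C := by
        field_simp
      rw [e] at h3
      have := le_max_left (Module.finrank ℚ K * C) (m * L + L)
      linarith
    · have h3 : Height.logHeight (c • x) ≤ m * L + L := by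
        rw [hcx]
        have hu : ζ ^ m ≠ 0 := by
          have := hpt.2 0
          rw [hcx] at this
          exact this
        have hu1 : 1 - ζ ^ m ≠ 0 := by
          have := hpt.2 1
          rw [hcx] at this
          exact this
        refine (height_le (ζ ^ m) hu hu1).trans ?_
        rw [Height.logHeight₁_pow]
        gcongr
      have h4 := le_max_right (Module.finrank ℚ K * C) (m * L + L)
      have h5 : 0 ≤ (1 + κ * ε) * rd (c • x) := mul_nonneg (by positivity) (rd_nonneg _)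
      linarith
  obtain ⟨C', hC'⟩ := hloc ε hε hε1 h1
  refine ⟨C' / Module.finrank ℚ K + 1, fun x hx => ?_⟩
  have h4 := hC' x hx
  rw [rad_eq]
  unfold h
  rw [div_lt_iff₀ hd]
  have e : ((1 + ε) * (rd x / Module.finrank ℚ K) + (C' / Module.finrank ℚ K + 1)) *
      Module.finrank ℚ K = (1 + ε) * rd x + C' + Module.finrank ℚ K := by
    field_simp
    ring
  rw [e]
  linarith

/-- **The abc conjecture over a number field is decided by a thin set of smooth points near a cusp.** -/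
theorem result (K : Type) [Field K] [NumberField K] (S : Finset (FinitePlace K)) (δ η : ℝ)
    (hδ : 0 < δ) (hη : 0 < η) (k : ℕ) (hk : 1 ≤ k) :
    (∃ T : Set (Fin 3 → K), T ⊆ Close S δ k ∩ Smooth η ∧ (∀ x ∈ T, x 2 = -1) ∧
      (∃ C : ℝ, ∀ B : ℝ, 0 ≤ B → {x | x ∈ T ∧ h x ≤ B}.Finite ∧
        ({x | x ∈ T ∧ h x ≤ B}.ncard : ℝ) ≤ C * Real.exp (η * B)) ∧
      ∃ κ : ℝ, 0 < κ ∧ ∀ ε : ℝ, 0 < ε → ε ≤ 1 → Ineq (κ * ε) T → Ineq ε (Points K)) ∧
    (ABCOn (Close S δ k ∩ Smooth η) ↔ ABCOn (Points K)) := by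
  obtain ⟨κ, C, hC, hcount⟩ := H645.ABC.poly_count K
  obtain ⟨n, hn, h1, h2⟩ := exists_exponent hη (κ * Module.finrank ℚ K) hk
  have hm : 1 ≤ k * n := Nat.one_le_iff_ne_zero.2 (by positivity)
  have hsub : thin S δ (k * n) ⊆ Close S δ k ∩ Smooth η :=
    fun x hx => ⟨thin_close S δ hn hx, thin_smooth S δ hm h1 hx⟩
  obtain ⟨ρ, hρ, htr⟩ := thin_transfer (K := K) S hδ hm
  refine ⟨⟨thin S δ (k * n), hsub, ?_, ⟨C, fun B hB => thin_count S δ hm h2 hC hcount hB⟩,
    ρ, hρ, htr⟩, fun H ε hε => ?_, fun H ε hε => ?_⟩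
  · rintro x ⟨-, ζ, rfl, -⟩
    rfl
  · have hstep : ∀ ε : ℝ, 0 < ε → ε ≤ 1 → Ineq ε (Points K) := by
      intro ε hε hε1
      obtain ⟨C, hC⟩ := H (ρ * ε) (by positivity)
      exact htr ε hε hε1 ⟨C, fun x hx => hC x (hsub hx)⟩
    rcases le_total ε 1 with h3 | h3
    · exact hstep ε hε h3
    · obtain ⟨C, hC⟩ := hstep 1 one_pos le_rfl
      refine ⟨C, fun x hx => (hC x hx).trans_le ?_⟩
      have := rad_nonneg x
      gcongr
  · obtain ⟨C, hC⟩ := H ε hε
    exact ⟨C, fun x hx => hC x hx.1.1⟩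

end Pool.Agent.Results.MP_a793bb_nt.SmoothPoints
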